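import Mathlib

set_option autoImplicit false
set_option linter.unusedSectionVars false

/-!
A single polynomial whose image determines every non-degenerate endomorphism.
-/

namespace Pool.Agent.Results.MP_d61c7e_al.DeterminingPolynomial

open Polynomial

/-- the auxiliary polynomials: `m_1 = x_1`, `m_{k+1} = m_k ^ 4 + x_{k+1} ^ 4 + m_k` -/
def mm {R : Type*} [CommRing R] (x : ℕ → R) : ℕ → R
  | 0 => x 0
  | k + 1 => mm x k ^ 4 + x (k + 1) ^ 4 + mm x k

/-- the polynomial `m ^ (2n+3) + m ^ (2n+1) + ∑ m ^ (2i) x_i` where `m = m_n` -/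
def pp {R : Type*} [CommRing R] (x : ℕ → R) (n : ℕ) : R :=
  mm x (n - 1) ^ (2 * n + 3) + mm x (n - 1) ^ (2 * n + 1) +
    ∑ i ∈ Finset.range n, mm x (n - 1) ^ (2 * i) * x i

theorem map_mm {R S : Type*} [CommRing R] [CommRing S] (φ : R →+* S) (x : ℕ → R) (k : ℕ) :
    φ (mm x k) = mm (fun i => φ (x i)) k := by
  induction k with
  | zero => rfl
  | succ k ih => rw [mm, mm, map_add, map_add, map_pow, map_pow, ih]

theorem map_pp {R S : Type*} [CommRing R] [CommRing S] (φ : R →+* S) (x : ℕ → R) (n : ℕ) :
    φ (pp x n) = pp (fun i => φ (x i)) n := by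
  rw [pp, pp, map_add, map_add, map_pow, map_pow, map_mm, map_sum]
  congr 1
  refine Finset.sum_congr rfl fun i _ => ?_
  rw [map_mul, map_pow, map_mm]

section

variable {K : Type*} [Field K] [CharZero K]

theorem eq_C_mul (f g : K[X]) (hg : g ≠ 0)
    (h : f * derivative g - derivative f * g = 0) : ∃ c : K, f = C c * g := by
  classical
  set d := GCDMonoid.gcd f g with hd
  have hd0 : d ≠ 0 := by
    intro h0
    rw [hd, gcd_eq_zero_iff] at h0
    exact hg h0.2
  obtain ⟨f', hf'⟩ := GCDMonoid.gcd_dvd_left f g
  obtain ⟨g', hg'⟩ := GCDMonoid.gcd_dvd_right f g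
  rw [← hd] at hf' hg'
  have hcop : IsCoprime f' g' := by
    have := isCoprime_div_gcd_div_gcd (p := f) hg
    rw [← hd] at this
    have h1 : f / d = f' := by rw [hf']; exact mul_div_cancel_left₀ f' hd0
    have h2 : g / d = g' := by rw [hg']; exact mul_div_cancel_left₀ g' hd0
    rwa [h1, h2] at this
  have hw : wronskian f' g' = 0 := by
    have h1 : d * d * wronskian f' g' = 0 := by
      rw [hf', hg', derivative_mul, derivative_mul] at h
      rw [wronskian, ← h]
      ring
    rcases mul_eq_zero.1 h1 with h2 | h2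
    · exact absurd (mul_self_eq_zero.1 h2) hd0
    · exact h2
  obtain ⟨h1, h2⟩ := hcop.wronskian_eq_zero_iff.1 hw
  have h3 := derivative_eq_zero.1 h1
  have h4 := derivative_eq_zero.1 h2
  obtain ⟨a, ha⟩ := natDegree_eq_zero.1 h3
  obtain ⟨b, hb⟩ := natDegree_eq_zero.1 h4
  have hb0 : b ≠ 0 := by
    rintro rfl
    rw [C_0] at hb
    rw [← hb, mul_zero] at hg'
    exact hg hg'
  refine ⟨a / b, ?_⟩
  rw [hf', hg', ← ha, ← hb]
  have : C (a / b) * (d * C b) = d * C (a / b * b) := by rw [C_mul]; ring
  rw [this, div_mul_cancel₀ _ hb0]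

/-- the two-variable gadget -/
theorem gadget (f g : K[X]) : f.natDegree ≤ (f ^ 4 + g ^ 4 + f).natDegree ∧
    g.natDegree ≤ (f ^ 4 + g ^ 4 + f).natDegree := by
  by_cases h0 : f ^ 4 + g ^ 4 = 0
  · have h1 : 4 * g.natDegree = 4 * f.natDegree := by
      rw [← natDegree_pow, ← natDegree_pow, ← natDegree_neg (f ^ 4)]
      congr 1
      linear_combination h0
    rw [h0, zero_add]
    omega
  · -- the degree of the sum of the fourth powers
    have key : 2 * f.natDegree ≤ (f ^ 4 + g ^ 4).natDegree ∧
        2 * g.natDegree ≤ (f ^ 4 + g ^ 4).natDegree := by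
      rcases lt_trichotomy f.natDegree g.natDegree with h | h | h
      · have h1 : (f ^ 4 + g ^ 4).natDegree = (g ^ 4).natDegree :=
          natDegree_add_eq_right_of_natDegree_lt (by rw [natDegree_pow, natDegree_pow]; omega)
        rw [h1, natDegree_pow]
        omega
      · by_cases hW : f * derivative g - derivative f * g = 0
        · by_cases hg : g = 0
          · subst hg
            rw [zero_pow (by norm_num), add_zero, natDegree_pow, natDegree_zero]
            omega
          · obtain ⟨c, rfl⟩ := eq_C_mul f g hg hW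
            have h2 : (C c * g) ^ 4 + g ^ 4 = C (c ^ 4 + 1) * g ^ 4 := by
              rw [C_add, C_pow, C_1]; ring
            rw [h2] at h0 ⊢
            have h3 : c ^ 4 + 1 ≠ 0 := by
              intro h4
              rw [h4, C_0, zero_mul] at h0
              exact h0 rfl
            rw [natDegree_C_mul h3, natDegree_pow]
            have := natDegree_C_mul_le c g
            omega
        · have hid : C 4 * g ^ 3 * (f * derivative g - derivative f * g) =
              f * derivative (f ^ 4 + g ^ 4) - C 4 * derivative f * (f ^ 4 + g ^ 4) := by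
            rw [derivative_add, derivative_pow, derivative_pow]
            simp only [Nat.cast_ofNat, map_ofNat, Nat.add_one_sub_one]
            ring
          have hg : g ≠ 0 := by
            rintro rfl
            simp at hW
          have hf : f ≠ 0 := by
            rintro rfl
            simp at hW
          have h2 : 3 * g.natDegree ≤ (C 4 * g ^ 3 * (f * derivative g -
              derivative f * g)).natDegree := by
            rw [natDegree_mul (mul_ne_zero (by simp) (pow_ne_zero _ hg)) hW,
              natDegree_C_mul (by norm_num), natDegree_pow]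
            omega
          rw [hid] at h2
          set h' := f ^ 4 + g ^ 4 with hh'
          have h3 : (f * derivative h' - C 4 * derivative f * h').natDegree ≤
              f.natDegree + h'.natDegree - 1 := by
            refine (natDegree_sub_le _ _).trans (max_le ?_ ?_)
            · by_cases h5 : derivative h' = 0
              · rw [h5, mul_zero, natDegree_zero]; omega
              · have h6 : h'.natDegree ≠ 0 := by
                  intro h7
                  obtain ⟨c, hc⟩ := natDegree_eq_zero.1 h7
                  rw [← hc, derivative_C] at h5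
                  exact h5 rfl
                have h8 := natDegree_derivative_lt h6
                refine natDegree_mul_le.trans ?_
                omega
            · by_cases h5 : derivative f = 0
              · rw [h5, mul_zero, zero_mul, natDegree_zero]; omega
              · have h6 : f.natDegree ≠ 0 := by
                  intro h7
                  obtain ⟨c, hc⟩ := natDegree_eq_zero.1 h7
                  rw [← hc, derivative_C] at h5
                  exact h5 rfl
                have h8 := natDegree_derivative_lt h6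
                refine natDegree_mul_le.trans ?_
                have h9 := natDegree_C_mul_le (4 : K) (derivative f)
                omega
          omega
      · have h1 : (f ^ 4 + g ^ 4).natDegree = (f ^ 4).natDegree :=
          natDegree_add_eq_left_of_natDegree_lt (by rw [natDegree_pow, natDegree_pow]; omega)
        rw [h1, natDegree_pow]
        omega
    rcases Nat.eq_zero_or_pos f.natDegree with h | h
    · rcases Nat.eq_zero_or_pos g.natDegree with h' | h'
      · omega
      · have h1 : (f ^ 4 + g ^ 4 + f).natDegree = (f ^ 4 + g ^ 4).natDegree :=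
          natDegree_add_eq_left_of_natDegree_lt (by omega)
        omega
    · have h1 : (f ^ 4 + g ^ 4 + f).natDegree = (f ^ 4 + g ^ 4).natDegree :=
        natDegree_add_eq_left_of_natDegree_lt (by omega)
      omega

theorem natDegree_mm (x : ℕ → K[X]) (k i : ℕ) (hi : i ≤ k) :
    (x i).natDegree ≤ (mm x k).natDegree := by
  induction k with
  | zero =>
    obtain rfl : i = 0 := by omega
    exact le_rfl
  | succ k ih =>
    obtain ⟨h1, h2⟩ := gadget (mm x k) (x (k + 1))
    rcases Nat.lt_or_ge i (k + 1) with h | h
    · exact (ih (by omega)).trans h1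
    · obtain rfl : i = k + 1 := by omega
      exact h2

/-- uniqueness of the expansion in powers of a square -/
theorem eq_zero_of_sum (F : K[X]) (hF : 0 < F.natDegree) (n : ℕ) (u : ℕ → K[X])
    (hu : ∀ i, i < n → (u i).natDegree ≤ F.natDegree)
    (h : ∑ i ∈ Finset.range n, F ^ (2 * i) * u i = 0) : ∀ i, i < n → u i = 0 := by
  induction n generalizing u with
  | zero => intro i hi; omega
  | succ n ih =>
    rw [Finset.sum_range_succ'] at h
    have h1 : ∑ i ∈ Finset.range n, F ^ (2 * (i + 1)) * u (i + 1) =
        F ^ 2 * ∑ i ∈ Finset.range n, F ^ (2 * i) * u (i + 1) := by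
      rw [Finset.mul_sum]
      refine Finset.sum_congr rfl fun i _ => ?_
      ring
    rw [h1, mul_zero, pow_zero, one_mul] at h
    have h2 : u 0 = 0 := by
      by_contra h3
      have h4 : F ^ 2 ∣ u 0 := ⟨-∑ i ∈ Finset.range n, F ^ (2 * i) * u (i + 1), by
        linear_combination h⟩
      have h5 := natDegree_le_of_dvd h4 h3
      rw [natDegree_pow] at h5
      have h6 := hu 0 (by omega)
      omega
    rw [h2, add_zero] at h
    have hF0 : F ≠ 0 := by
      rintro rfl
      simp at hF
    have h3 := (mul_eq_zero.1 h).resolve_left (pow_ne_zero 2 hF0)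
    have h4 := ih (fun i => u (i + 1)) (fun i hi => hu (i + 1) (by omega)) h3
    intro i hi
    rcases i with _ | i
    · exact h2
    · exact h4 i (by omega)

theorem natDegree_rest (x : ℕ → K[X]) (n : ℕ) (hn : 1 ≤ n) :
    (∑ i ∈ Finset.range n, mm x (n - 1) ^ (2 * i) * x i).natDegree ≤
      (2 * n - 1) * (mm x (n - 1)).natDegree := by
  refine natDegree_sum_le_of_forall_le _ _ fun i hi => ?_
  rw [Finset.mem_range] at hi
  refine natDegree_mul_le.trans ?_
  rw [natDegree_pow]
  have h1 := natDegree_mm x (n - 1) i (by omega)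
  calc 2 * i * (mm x (n - 1)).natDegree + (x i).natDegree
      ≤ 2 * i * (mm x (n - 1)).natDegree + (mm x (n - 1)).natDegree := by omega
    _ = (2 * i + 1) * (mm x (n - 1)).natDegree := by ring
    _ ≤ (2 * n - 1) * (mm x (n - 1)).natDegree := Nat.mul_le_mul_right _ (by omega)

theorem natDegree_pp (x : ℕ → K[X]) (n : ℕ) (hn : 1 ≤ n) (hx : 0 < (mm x (n - 1)).natDegree) :
    (pp x n).natDegree = (2 * n + 3) * (mm x (n - 1)).natDegree := by
  have h1 := natDegree_rest x n hn
  set D := (mm x (n - 1)).natDegree with hD
  have h2 : (mm x (n - 1) ^ (2 * n + 1)).natDegree = (2 * n + 1) * D := by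
    rw [natDegree_pow]
  have h3 : (mm x (n - 1) ^ (2 * n + 3)).natDegree = (2 * n + 3) * D := by
    rw [natDegree_pow]
  have e1 : (2 * n - 1) * D < (2 * n + 3) * D := Nat.mul_lt_mul_of_pos_right (by omega) hx
  have e2 : (2 * n + 1) * D < (2 * n + 3) * D := Nat.mul_lt_mul_of_pos_right (by omega) hx
  rw [pp, natDegree_add_eq_left_of_natDegree_lt, natDegree_add_eq_left_of_natDegree_lt, h3]
  · rw [h2, h3]; exact e2
  · rw [natDegree_add_eq_left_of_natDegree_lt, h3]
    · omega
    · rw [h2, h3]; exact e2

/-- the statement for tuples of polynomials in one variable -/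
theorem univariate (f g : ℕ → K[X]) (n : ℕ) (hn : 1 ≤ n)
    (hf : 0 < (mm f (n - 1)).natDegree) (hg : 0 < (mm g (n - 1)).natDegree)
    (h : pp f n = pp g n) : ∀ i, i < n → f i = g i := by
  have hdeg := natDegree_pp f n hn hf
  rw [h, natDegree_pp g n hn hg] at hdeg
  have hrf := natDegree_rest f n hn
  have hrg := natDegree_rest g n hn
  have hdf := fun i => natDegree_mm f (n - 1) i
  have hdg := fun i => natDegree_mm g (n - 1) i
  rw [pp, pp] at h
  set F := mm f (n - 1) with hF
  set H := mm g (n - 1) with hH
  set rf := ∑ i ∈ Finset.range n, F ^ (2 * i) * f i with hrf'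
  set rg := ∑ i ∈ Finset.range n, H ^ (2 * i) * g i with hrg'
  have hD : H.natDegree = F.natDegree := Nat.eq_of_mul_eq_mul_left (by omega) hdeg
  have hF0 : F ≠ 0 := by
    intro h0
    rw [h0] at hf
    simp at hf
  have hH0 : H ≠ 0 := by
    intro h0
    rw [h0] at hg
    simp at hg
  rw [hD] at hrg
  set D := F.natDegree with hDD
  set E := F ^ (2 * n + 3) - H ^ (2 * n + 3) with hE
  have hE' : E = -(F ^ (2 * n + 1) - H ^ (2 * n + 1)) - (rf - rg) := by
    rw [hE]
    linear_combination h
  have e1 : (2 * n - 1) * D ≤ (2 * n + 1) * D := Nat.mul_le_mul_right _ (by omega)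
  have hEdeg : E.natDegree ≤ (2 * n + 1) * D := by
    rw [hE']
    refine (natDegree_sub_le _ _).trans (max_le ?_ ?_)
    · rw [natDegree_neg]
      refine (natDegree_sub_le _ _).trans (max_le ?_ ?_)
      · rw [natDegree_pow]
      · rw [natDegree_pow, hD]
    · refine (natDegree_sub_le _ _).trans (max_le ?_ ?_)
      · exact hrf.trans e1
      · exact hrg.trans e1
  -- `F` and `H` are proportional
  have hprop : ∃ c : K, F = C c * H := by
    apply eq_C_mul F H hH0
    by_contra hW
    have hid : C (2 * n + 3 : K) * F ^ (2 * n + 2) * (F * derivative H - derivative F * H) =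
        C (2 * n + 3 : K) * E * derivative H - derivative E * H := by
      rw [hE, derivative_sub, derivative_pow, derivative_pow]
      have h1 : ((2 * n + 3 : ℕ) : K) = 2 * n + 3 := by push_cast; ring
      rw [h1, show 2 * n + 3 - 1 = 2 * n + 2 by omega, pow_succ H (2 * n + 2),
        pow_succ F (2 * n + 2)]
      ring
    have hc0 : (2 * n + 3 : K) ≠ 0 := by
      have : ((2 * n + 3 : ℕ) : K) ≠ 0 := Nat.cast_ne_zero.2 (by omega)
      push_cast at this
      exact this
    have h2 : (2 * n + 2) * D ≤ (C (2 * n + 3 : K) * F ^ (2 * n + 2) *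
        (F * derivative H - derivative F * H)).natDegree := by
      rw [natDegree_mul (mul_ne_zero (by rwa [Ne, C_eq_zero]) (pow_ne_zero _ hF0)) hW,
        natDegree_C_mul hc0, natDegree_pow]
      exact Nat.le_add_right _ _
    rw [hid] at h2
    have h3 : (C (2 * n + 3 : K) * E * derivative H - derivative E * H).natDegree ≤
        E.natDegree + D - 1 := by
      refine (natDegree_sub_le _ _).trans (max_le ?_ ?_)
      · have h8 := natDegree_derivative_lt (p := H) (by omega)
        refine natDegree_mul_le.trans ?_
        have h9 := natDegree_C_mul_le (2 * n + 3 : K) E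
        omega
      · by_cases h5 : derivative E = 0
        · rw [h5, zero_mul, natDegree_zero]; omega
        · have h6 : E.natDegree ≠ 0 := by
            intro h7
            obtain ⟨c, hc⟩ := natDegree_eq_zero.1 h7
            rw [← hc, derivative_C] at h5
            exact h5 rfl
          have h8 := natDegree_derivative_lt h6
          refine natDegree_mul_le.trans ?_
          omega
    have h4 : (2 * n + 2) * D = (2 * n + 1) * D + D := by ring
    omega
  obtain ⟨c, hc⟩ := hprop
  have hc1 : c ^ (2 * n + 3) = 1 := by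
    by_contra hne
    have h1 : E = C (c ^ (2 * n + 3) - 1) * H ^ (2 * n + 3) := by
      rw [hE, hc, mul_pow, C_sub, C_pow, C_1]; ring
    rw [h1, natDegree_C_mul (sub_ne_zero.2 hne), natDegree_pow, hD] at hEdeg
    have : (2 * n + 1) * D < (2 * n + 3) * D := Nat.mul_lt_mul_of_pos_right (by omega) hf
    omega
  have hE0 : E = 0 := by
    rw [hE, hc, mul_pow, ← C_pow, hc1, C_1, one_mul, sub_self]
  have hc2 : c ^ (2 * n + 1) = 1 := by
    by_contra hne
    have h1 : C (c ^ (2 * n + 1) - 1) * H ^ (2 * n + 1) = -(rf - rg) := by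
      rw [hE0] at hE'
      have h2 : F ^ (2 * n + 1) - H ^ (2 * n + 1) = C (c ^ (2 * n + 1) - 1) * H ^ (2 * n + 1) := by
        rw [hc, mul_pow, C_sub, C_pow, C_1]; ring
      rw [← h2]
      linear_combination hE'
    have h2 : (2 * n + 1) * D ≤ (2 * n - 1) * D := by
      calc (2 * n + 1) * D = (C (c ^ (2 * n + 1) - 1) * H ^ (2 * n + 1)).natDegree := by
            rw [natDegree_C_mul (sub_ne_zero.2 hne), natDegree_pow, hD]
        _ = (rf - rg).natDegree := by rw [h1, natDegree_neg]
        _ ≤ (2 * n - 1) * D := (natDegree_sub_le _ _).trans (max_le hrf hrg)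
    have : (2 * n - 1) * D < (2 * n + 1) * D := Nat.mul_lt_mul_of_pos_right (by omega) hf
    omega
  have hc3 : c = 1 := by
    have h1 : c ^ 2 = 1 := by
      have : c ^ (2 * n + 3) = c ^ (2 * n + 1) * c ^ 2 := by ring
      rw [this, hc2, one_mul] at hc1
      exact hc1
    have h2 : c ^ (2 * n + 1) = (c ^ 2) ^ n * c := by ring
    rw [h2, h1, one_pow, one_mul] at hc2
    exact hc2
  have hFH : F = H := by rw [hc, hc3, C_1, one_mul]
  -- comparison of the coefficients
  have hsum : ∑ i ∈ Finset.range n, F ^ (2 * i) * (f i - g i) = 0 := by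
    have h1 : rf - rg = 0 := by
      rw [← hFH] at h
      linear_combination h
    rw [← h1, hrf', hrg', ← hFH, ← Finset.sum_sub_distrib]
    refine Finset.sum_congr rfl fun i _ => ?_
    ring
  have hz := eq_zero_of_sum F hf n (fun i => f i - g i) (fun i hi => by
    refine (natDegree_sub_le _ _).trans (max_le (hdf i (by omega)) ?_)
    exact (hdg i (by omega)).trans hD.le) hsum
  intro i hi
  exact sub_eq_zero.1 (hz i hi)

end

/-- An endomorphism of the polynomial ring in `n` variables is non-degenerate if its image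
contains a non-constant polynomial. -/
def NonDegenerate {K : Type*} [Field K] {n : ℕ}
    (φ : MvPolynomial (Fin n) K →ₐ[K] MvPolynomial (Fin n) K) : Prop :=
  ∃ q : MvPolynomial (Fin n) K, ∀ c : K, φ q ≠ MvPolynomial.C c

/-- the variables, as a sequence -/
noncomputable def var (K : Type*) [Field K] (n : ℕ) (i : ℕ) : MvPolynomial (Fin n) K :=
  if h : i < n then MvPolynomial.X ⟨i, h⟩ else 0

theorem exists_nonconstant {K : Type*} [Field K] {n : ℕ}
    (φ : MvPolynomial (Fin n) K →ₐ[K] MvPolynomial (Fin n) K) (hφ : NonDegenerate φ) :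
    ∃ i : Fin n, ∀ c : K, φ (MvPolynomial.X i) ≠ MvPolynomial.C c := by
  by_contra h
  push Not at h
  choose c hc using h
  obtain ⟨q, hq⟩ := hφ
  have h1 : φ = (Algebra.ofId K (MvPolynomial (Fin n) K)).comp (MvPolynomial.aeval c) := by
    apply MvPolynomial.algHom_ext
    intro i
    rw [hc, AlgHom.comp_apply, MvPolynomial.aeval_X]
    rfl
  apply hq (MvPolynomial.aeval c q)
  rw [h1, AlgHom.comp_apply]
  rfl

/-- the restriction to a line through the origin -/
noncomputable def line {K : Type*} [Field K] {n : ℕ} (a : Fin n → K) :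
    MvPolynomial (Fin n) K →ₐ[K] K[X] :=
  MvPolynomial.aeval (fun i => C (a i) * X)

theorem line_eval_one {K : Type*} [Field K] {n : ℕ} (a : Fin n → K)
    (q : MvPolynomial (Fin n) K) : (line a q).eval 1 = MvPolynomial.eval a q := by
  have h : ((aeval (1 : K) : K[X] →ₐ[K] K).comp (line a)) =
      (MvPolynomial.aeval a : MvPolynomial (Fin n) K →ₐ[K] K) := by
    apply MvPolynomial.algHom_ext
    intro i
    rw [AlgHom.comp_apply, line, MvPolynomial.aeval_X, MvPolynomial.aeval_X, coe_aeval_eq_eval]
    simp
  have h1 := DFunLike.congr_fun h q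
  rw [AlgHom.comp_apply, MvPolynomial.aeval_eq_eval] at h1
  rw [← h1, coe_aeval_eq_eval]

theorem line_eval_zero {K : Type*} [Field K] {n : ℕ} (a : Fin n → K)
    (q : MvPolynomial (Fin n) K) : (line a q).eval 0 = MvPolynomial.eval 0 q := by
  have h : ((aeval (0 : K) : K[X] →ₐ[K] K).comp (line a)) =
      (MvPolynomial.aeval (0 : Fin n → K) : MvPolynomial (Fin n) K →ₐ[K] K) := by
    apply MvPolynomial.algHom_ext
    intro i
    rw [AlgHom.comp_apply, line, MvPolynomial.aeval_X, MvPolynomial.aeval_X, coe_aeval_eq_eval]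
    simp
  have h1 := DFunLike.congr_fun h q
  rw [AlgHom.comp_apply, MvPolynomial.aeval_eq_eval] at h1
  rw [← h1, coe_aeval_eq_eval]

/-- nonconstancy along a line -/
theorem line_nonconstant {K : Type*} [Field K] {n : ℕ} (a : Fin n → K)
    (q : MvPolynomial (Fin n) K)
    (h : MvPolynomial.eval a (q - MvPolynomial.C (MvPolynomial.eval 0 q)) ≠ 0) :
    0 < (line a q).natDegree := by
  by_contra h0
  have h1 : (line a q).natDegree = 0 := by omega
  obtain ⟨c, hc⟩ := natDegree_eq_zero.1 h1
  have h2 := line_eval_one a q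
  have h3 := line_eval_zero a q
  rw [← hc, eval_C] at h2 h3
  apply h
  rw [map_sub, MvPolynomial.eval_C, ← h2, ← h3, sub_self]

/-- For every `n ≥ 1` (in particular every `n ≥ 2`) and every field `K` of characteristic zero
there is a polynomial in `n` variables whose image determines every non-degenerate endomorphism
of `K[x_1, …, x_n]`. -/
theorem result (K : Type*) [Field K] [CharZero K] (n : ℕ) (hn : 1 ≤ n) :
    ∃ p : MvPolynomial (Fin n) K,
      ∀ φ ψ : MvPolynomial (Fin n) K →ₐ[K] MvPolynomial (Fin n) K,
        NonDegenerate φ → NonDegenerate ψ → φ p = ψ p → φ = ψ := by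
  refine ⟨pp (var K n) n, fun φ ψ hφ hψ hp => ?_⟩
  by_contra hne
  obtain ⟨j, hj⟩ := exists_nonconstant φ hφ
  obtain ⟨k, hk⟩ := exists_nonconstant ψ hψ
  obtain ⟨i, hi⟩ : ∃ i : Fin n, φ (MvPolynomial.X i) ≠ ψ (MvPolynomial.X i) := by
    by_contra h
    push Not at h
    exact hne (MvPolynomial.algHom_ext h)
  set u := φ (MvPolynomial.X j) - MvPolynomial.C (MvPolynomial.eval 0 (φ (MvPolynomial.X j)))
    with hu
  set v := ψ (MvPolynomial.X k) - MvPolynomial.C (MvPolynomial.eval 0 (ψ (MvPolynomial.X k)))
    with hv
  set w := φ (MvPolynomial.X i) - ψ (MvPolynomial.X i) with hw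
  have hu0 : u ≠ 0 := sub_ne_zero.2 (hj _)
  have hv0 : v ≠ 0 := sub_ne_zero.2 (hk _)
  have hw0 : w ≠ 0 := sub_ne_zero.2 hi
  obtain ⟨a, ha⟩ : ∃ a : Fin n → K, MvPolynomial.eval a (u * v * w) ≠ 0 := by
    by_contra h
    push Not at h
    have : u * v * w = 0 := MvPolynomial.funext (fun a => by rw [h a, map_zero])
    exact mul_ne_zero (mul_ne_zero hu0 hv0) hw0 this
  rw [map_mul, map_mul] at ha
  have hua : MvPolynomial.eval a u ≠ 0 := left_ne_zero_of_mul (left_ne_zero_of_mul ha)
  have hva : MvPolynomial.eval a v ≠ 0 := right_ne_zero_of_mul (left_ne_zero_of_mul ha)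
  have hwa : MvPolynomial.eval a w ≠ 0 := right_ne_zero_of_mul ha
  have hvar : ∀ l : Fin n, var K n l = MvPolynomial.X l := by
    intro l
    rw [var, dif_pos l.2]
  let f : ℕ → K[X] := fun l => line a (φ (var K n l))
  let g : ℕ → K[X] := fun l => line a (ψ (var K n l))
  have hf : 0 < (mm f (n - 1)).natDegree := by
    have h1 := line_nonconstant a _ hua
    have h2 := natDegree_mm f (n - 1) j (by omega)
    have h3 : f j = line a (φ (MvPolynomial.X j)) := by simp only [f]; rw [hvar]
    rw [h3] at h2
    omega
  have hg : 0 < (mm g (n - 1)).natDegree := by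
    have h1 := line_nonconstant a _ hva
    have h2 := natDegree_mm g (n - 1) k (by omega)
    have h3 : g k = line a (ψ (MvPolynomial.X k)) := by simp only [g]; rw [hvar]
    rw [h3] at h2
    omega
  have hpf : line a (φ (pp (var K n) n)) = pp f n :=
    map_pp ((line a).toRingHom.comp φ.toRingHom) (var K n) n
  have hpg : line a (ψ (pp (var K n) n)) = pp g n :=
    map_pp ((line a).toRingHom.comp ψ.toRingHom) (var K n) n
  have hfg : pp f n = pp g n := by rw [← hpf, ← hpg, hp]
  have h4 := univariate f g n hn hf hg hfg i i.2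
  apply hwa
  rw [← line_eval_one, hw, map_sub]
  simp only [f, g] at h4
  rw [hvar] at h4
  rw [h4, sub_self, eval_zero]

end Pool.Agent.Results.MP_d61c7e_al.DeterminingPolynomial
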